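import Mathlib

set_option autoImplicit false

/-! # Fourier analysis on `ZMod m` for residue conditions -/

namespace Pool.Agent.V7H7.RT

open Finset ZMod

variable {m : ℕ} [NeZero m]

lemma norm_char (x : ZMod m) : ‖(stdAddChar (N := m)) x‖ = 1 := by
  exact AddChar.norm_apply _ _

lemma conj_char (x : ZMod m) :
    (starRingEnd ℂ) ((stdAddChar (N := m)) x) = (stdAddChar (N := m)) (-x) := by
  have h1 : (stdAddChar (N := m)) x * (stdAddChar (N := m)) (-x) = 1 := by
    rw [← AddChar.map_add_eq_mul]; simp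
  have h2 : (stdAddChar (N := m)) x * (starRingEnd ℂ) ((stdAddChar (N := m)) x) = 1 := by
    rw [Complex.mul_conj, Complex.normSq_eq_norm_sq, norm_char]; simp
  have h3 : (stdAddChar (N := m)) x ≠ 0 := by
    intro h; have := norm_char x; rw [h] at this; simp at this
  exact mul_left_cancel₀ h3 (h2.trans h1.symm)

/-- Parseval. -/
theorem parseval (g : ZMod m → ℂ) :
    ∑ f : ZMod m, ‖∑ j : ZMod m, g j * (stdAddChar (N := m)) (-(f * j))‖ ^ 2 =
      m * ∑ j : ZMod m, ‖g j‖ ^ 2 := by
  have hC : ((∑ f : ZMod m, ‖∑ j : ZMod m, g j * (stdAddChar (N := m)) (-(f * j))‖ ^ 2 : ℝ) : ℂ) =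
      ((m * ∑ j : ZMod m, ‖g j‖ ^ 2 : ℝ) : ℂ) := by
    push_cast
    have h1 : ∀ z : ℂ, (‖z‖ : ℂ) ^ 2 = z * (starRingEnd ℂ) z := by
      intro z; rw [Complex.mul_conj, Complex.normSq_eq_norm_sq]; push_cast; ring
    simp only [h1, map_sum, map_mul, conj_char, neg_neg]
    calc ∑ f : ZMod m, (∑ j, g j * (stdAddChar (N := m)) (-(f * j))) *
          ∑ k, (starRingEnd ℂ) (g k) * (stdAddChar (N := m)) (f * k)
        = ∑ f : ZMod m, ∑ j, ∑ k, (g j * (starRingEnd ℂ) (g k)) *
            (stdAddChar (N := m)) (f * (k - j)) := by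
          refine sum_congr rfl fun f _ => ?_
          rw [sum_mul_sum]
          refine sum_congr rfl fun j _ => sum_congr rfl fun k _ => ?_
          have : f * (k - j) = -(f * j) + f * k := by ring
          rw [this, AddChar.map_add_eq_mul]; ring
      _ = ∑ j, ∑ k, (g j * (starRingEnd ℂ) (g k)) *
            ∑ f : ZMod m, (stdAddChar (N := m)) (f * (k - j)) := by
          rw [sum_comm]
          refine sum_congr rfl fun j _ => ?_
          rw [sum_comm]
          refine sum_congr rfl fun k _ => ?_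
          rw [mul_sum]
      _ = ∑ j, ∑ k, (g j * (starRingEnd ℂ) (g k)) * (if k = j then (m : ℂ) else 0) := by
          refine sum_congr rfl fun j _ => sum_congr rfl fun k _ => ?_
          rw [AddChar.sum_mulShift _ (isPrimitive_stdAddChar m)]
          simp only [sub_eq_zero, ZMod.card]
          split_ifs <;> simp
      _ = (m : ℂ) * ∑ j, g j * (starRingEnd ℂ) (g j) := by
          rw [mul_sum]
          refine sum_congr rfl fun j _ => ?_
          rw [sum_eq_single j]
          · simp; ring
          · intro k _ hk; simp [hk]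
          · simp
  exact_mod_cast hC

/-- `1 / v + 1 / (m - v)` for the representative `v` of `x`. -/
noncomputable def wt (x : ZMod m) : ℝ := 1 / (x.val : ℝ) + 1 / ((m : ℝ) - x.val)

omit [NeZero m] in
lemma val_pos {x : ZMod m} (hx : x ≠ 0) : 0 < (x.val : ℝ) := by
  have : x.val ≠ 0 := fun h => hx ((ZMod.val_eq_zero x).1 h)
  exact_mod_cast Nat.pos_of_ne_zero this

lemma val_lt' (x : ZMod m) : (x.val : ℝ) < m := by exact_mod_cast ZMod.val_lt x

lemma wt_nonneg (x : ZMod m) : 0 ≤ wt x := by
  unfold wt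
  have h1 : (0 : ℝ) ≤ x.val := by positivity
  have h2 : (0 : ℝ) ≤ (m : ℝ) - x.val := by linarith [val_lt' x]
  positivity

lemma wt_neg {x : ZMod m} (hx : x ≠ 0) : wt (-x) = wt x := by
  have : NeZero x := ⟨hx⟩
  have h : (-x).val = m - x.val := ZMod.val_neg_of_ne_zero x
  have h2 : x.val ≤ m := (ZMod.val_lt x).le
  unfold wt
  rw [h, Nat.cast_sub h2]
  ring

lemma norm_one_sub_char {x : ZMod m} (hx : x ≠ 0) :
    2 / ‖1 - (stdAddChar (N := m)) x‖ ≤ (m : ℝ) / 2 * wt x := by
  have hm : (0 : ℝ) < m := by exact_mod_cast Nat.pos_of_ne_zero (NeZero.ne m)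
  obtain ⟨v, hv⟩ : ∃ v : ℝ, v = x.val := ⟨_, rfl⟩
  have hv0 : 0 < v := by rw [hv]; exact val_pos hx
  have hvm : v < m := by rw [hv]; exact val_lt' x
  have h1 : (stdAddChar (N := m)) x = Complex.exp (Complex.I * ((2 * Real.pi * v / m : ℝ) : ℂ)) := by
    have : x = ((x.val : ℤ) : ZMod m) := by simp
    rw [this, stdAddChar_coe]
    congr 1
    rw [hv]
    push_cast
    simp
    ring
  have h2 : ‖1 - (stdAddChar (N := m)) x‖ = 2 * Real.sin (Real.pi * v / m) := by
    rw [norm_sub_rev, h1, Complex.norm_exp_I_mul_ofReal_sub_one]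
    have e : 2 * Real.pi * v / m / 2 = Real.pi * v / m := by ring
    rw [e, Real.norm_eq_abs, abs_of_nonneg]
    have : 0 ≤ Real.sin (Real.pi * v / m) := by
      apply Real.sin_nonneg_of_nonneg_of_le_pi
      · positivity
      · rw [div_le_iff₀ hm]; nlinarith [Real.pi_pos]
    linarith
  rw [h2]
  have hw : wt x = 1 / v + 1 / (m - v) := by unfold wt; rw [hv]
  rw [hw]
  have hmv : 0 < (m : ℝ) - v := by linarith
  rcases le_total v (m / 2) with hc | hc
  · have h3 : 2 / Real.pi * (Real.pi * v / m) ≤ Real.sin (Real.pi * v / m) := by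
      apply Real.mul_le_sin
      · positivity
      · rw [div_le_iff₀ hm]; nlinarith [Real.pi_pos]
    have h4 : 2 / Real.pi * (Real.pi * v / m) = 2 * v / m := by
      field_simp [Real.pi_pos.ne']
    rw [h4] at h3
    have h5 : 0 < 2 * v / m := by positivity
    calc 2 / (2 * Real.sin (Real.pi * v / m)) ≤ 2 / (2 * (2 * v / m)) := by
          apply div_le_div_of_nonneg_left (by norm_num) (by linarith) (by linarith)
      _ = m / 2 * (1 / v) := by field_simp
      _ ≤ m / 2 * (1 / v + 1 / (m - v)) := by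
          apply mul_le_mul_of_nonneg_left _ (by positivity)
          have : 0 < 1 / ((m : ℝ) - v) := by positivity
          linarith
  · have e : Real.sin (Real.pi * v / m) = Real.sin (Real.pi * (m - v) / m) := by
      rw [← Real.sin_pi_sub]
      congr 1
      field_simp
    have h3 : 2 / Real.pi * (Real.pi * (m - v) / m) ≤ Real.sin (Real.pi * (m - v) / m) := by
      apply Real.mul_le_sin
      · positivity
      · rw [div_le_iff₀ hm]; nlinarith [Real.pi_pos]
    have h4 : 2 / Real.pi * (Real.pi * (m - v) / m) = 2 * (m - v) / m := by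
      field_simp [Real.pi_pos.ne']
    rw [h4] at h3
    have h5 : 0 < 2 * (m - v) / m := by positivity
    rw [e]
    calc 2 / (2 * Real.sin (Real.pi * (m - v) / m)) ≤ 2 / (2 * (2 * (m - v) / m)) := by
          apply div_le_div_of_nonneg_left (by norm_num) (by linarith) (by linarith)
      _ = m / 2 * (1 / (m - v)) := by field_simp
      _ ≤ m / 2 * (1 / v + 1 / (m - v)) := by
          apply mul_le_mul_of_nonneg_left _ (by positivity)
          have : 0 < 1 / v := by positivity
          linarith

/-- The exponential sum over the residues whose representatives are `c` modulo `L`. -/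
theorem norm_sum_class (L c : ℕ) (g : ZMod m) (hg : g * (L : ZMod m) ≠ 0) :
    ‖∑ u : ZMod m, (if u.val % L = c then (1 : ℂ) else 0) * (stdAddChar (N := m)) (-(g * u))‖ ≤
      (m : ℝ) / 2 * wt (g * (L : ZMod m)) := by
  set z : ℂ := (stdAddChar (N := m)) (-g) with hz
  have hz1 : ‖z‖ = 1 := norm_char _
  obtain ⟨F, hF⟩ : ∃ F : ℕ → ℂ, F = fun v => if v % L = c then z ^ v else 0 := ⟨_, rfl⟩
  have hL : L ≠ 0 := by rintro rfl; simp at hg
  have h0 : ∑ u : ZMod m, (if u.val % L = c then (1 : ℂ) else 0) *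
      (stdAddChar (N := m)) (-(g * u)) = ∑ v ∈ range m, F v := by
    symm
    apply sum_bij' (i := fun (v : ℕ) _ => (v : ZMod m)) (j := fun (u : ZMod m) _ => u.val)
    · intro v _; exact mem_univ _
    · intro u _; exact mem_range.2 (ZMod.val_lt u)
    · intro v hv; exact ZMod.val_cast_of_lt (mem_range.1 hv)
    · intro u _; simp
    · intro v hv
      have hv' : ((v : ℕ) : ZMod m).val = v := ZMod.val_cast_of_lt (mem_range.1 hv)
      have : -(g * (v : ZMod m)) = v • (-g) := by rw [nsmul_eq_mul]; ring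
      rw [hF, hv', this, AddChar.map_nsmul_eq_pow, ← hz]
      by_cases hc : v % L = c
      · simp only [hc, if_true, one_mul]
      · simp only [hc, if_false, zero_mul]
  have hzL : z ^ L = (stdAddChar (N := m)) (-(g * (L : ZMod m))) := by
    rw [hz, ← AddChar.map_nsmul_eq_pow, nsmul_eq_mul]; congr 1; ring
  have hne : -(g * (L : ZMod m)) ≠ 0 := neg_ne_zero.2 hg
  have hz1L : 1 - z ^ L ≠ 0 := by
    rw [hzL]
    intro h
    apply hne
    apply injective_stdAddChar (N := m)
    rw [AddChar.map_zero_eq_one]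
    linear_combination -h
  have hshift : ∀ v, z ^ L * F v = F (v + L) := by
    intro v
    rw [hF]
    simp only [Nat.add_mod_right]
    split_ifs
    · rw [pow_add]; ring
    · ring
  have hsum : (1 - z ^ L) * ∑ v ∈ range m, F v =
      ∑ v ∈ range L, F v - ∑ v ∈ range L, F (m + v) := by
    have h1 : z ^ L * ∑ v ∈ range m, F v = ∑ v ∈ range m, F (L + v) := by
      rw [mul_sum]; exact sum_congr rfl fun v _ => by rw [hshift, Nat.add_comm]
    have h2 : ∑ v ∈ range (L + m), F v = ∑ v ∈ range L, F v + ∑ v ∈ range m, F (L + v) :=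
      sum_range_add F L m
    have h3 : ∑ v ∈ range (m + L), F v = ∑ v ∈ range m, F v + ∑ v ∈ range L, F (m + v) :=
      sum_range_add F m L
    rw [Nat.add_comm] at h2
    rw [h2] at h3
    rw [sub_mul, one_mul, h1]
    linear_combination -h3
  have hblock : ∀ a : ℕ, ‖∑ v ∈ range L, F (a + v)‖ ≤ 1 := by
    intro a
    calc ‖∑ v ∈ range L, F (a + v)‖ ≤ ∑ v ∈ range L, ‖F (a + v)‖ := norm_sum_le _ _
      _ = ∑ v ∈ range L, (if (a + v) % L = c then (1 : ℝ) else 0) := by
          refine sum_congr rfl fun v _ => ?_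
          rw [hF]
          simp only
          split_ifs
          · rw [norm_pow, hz1, one_pow]
          · simp
      _ = (((range L).filter fun v => (a + v) % L = c).card : ℝ) := by
          rw [card_filter]; push_cast; rfl
      _ ≤ 1 := by
          have : ((range L).filter fun v => (a + v) % L = c).card ≤ 1 := by
            rw [card_le_one]
            intro v hv w hw
            rw [mem_filter, mem_range] at hv hw
            have h1 : a + v ≡ a + w [MOD L] := hv.2.trans hw.2.symm
            have h2 : v ≡ w [MOD L] := Nat.ModEq.add_left_cancel' a h1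
            exact Nat.ModEq.eq_of_lt_of_lt h2 hv.1 hw.1
          exact_mod_cast this
  have hnorm : ‖1 - z ^ L‖ * ‖∑ v ∈ range m, F v‖ ≤ 2 := by
    rw [← norm_mul, hsum]
    have h1 := hblock 0
    simp only [zero_add] at h1
    exact (norm_sub_le _ _).trans (by linarith [hblock m])
  have hpos : 0 < ‖1 - z ^ L‖ := norm_pos_iff.2 hz1L
  rw [h0]
  calc ‖∑ v ∈ range m, F v‖ ≤ 2 / ‖1 - z ^ L‖ := by
        rw [le_div_iff₀ hpos]; linarith
    _ ≤ (m : ℝ) / 2 * wt (-(g * (L : ZMod m))) := by
        rw [hzL]; exact norm_one_sub_char hne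
    _ = _ := by rw [wt_neg hg]

end Pool.Agent.V7H7.RT
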